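import Pool.Agent.H81.XN.Old

/-! Statements of the modules EXT, LOCAL, RAT, START in dimension `m + 4`. -/

namespace Pool.Agent.H81.XN

open Pool.Agent.H54.XN

variable {r m : ℕ}

/-- EXT 1: Lemma M. -/
def LemmaM (B : BCl r m) (L : Fin r → ℝ) : Prop :=
  Two B L → ∀ v (u : ℝ), Good B L v → 0 < u → 2 * u * AA B (B.pb L) v < (1 + u) * AA B v v →
    ∃ w, Good B L w ∧ ∀ E, (1 + u) * B.o v E ≤ B.o w E

/-- EXT 2. `th` is the functional, `S` the set of the coefficients of `g`. -/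
def ExtCore (B : BCl r m) (L : Fin r → ℝ) : Prop :=
  Two B L → ∀ (P : B.V) (S : Finset B.D) (th : B.V → ℝ), Good B L P → 0 < th P →
  (∀ w, Good B L w → th w ≤ th P) →
  (∀ v w (c : ℝ), Good B L v → Good B L w → 0 ≤ c → (∀ E, c * B.o v E ≤ B.o w E) → c * th v ≤ th w) →
  (∀ v (t : ℝ), Good B L v → 0 ≤ t → t ≤ 1 → (∀ E, B.o v E ≤ t * B.o P E) →
    (∀ E ∈ S, B.o v E = t * B.o P E) → th v = t * th P ∧
      AA B (B.pb L) v = (1 - t) * AA B (B.pb L) (B.pb L) + t * AA B (B.pb L) P) →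
  (∀ w, Good B L w → (∀ E, B.o P E ≤ B.o w E) → AA B (B.pb L) w = AA B (B.pb L) P) →
  (∀ s, B.I (P ::ₘ P ::ₘ s) = 0) ∧
  (∀ w, Good B L w → ∀ t : ℝ, 0 ≤ t → t ≤ 1 → (∀ E ∈ S, t * B.o P E ≤ B.o w E) →
    ∀ E, t * B.o P E ≤ B.o w E) ∧
  ∀ w, Good B L w → (∀ E, B.o P E ≤ B.o w E) → ∀ E, B.o w E = B.o P E

section

variable {B : BCl r m} {L : Fin r → ℝ} {a : B.D → ℕ} {x : B.D → ℝ} {lam : ℝ}

/-- LOCAL: nefness near `L - t x` is given by finitely many linear conditions. -/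
def LocalStatement (Y : Last B L a x lam) : Prop :=
  B.Nef (B.pb L) →
  ∃ (V : Set (Y.J → ℤ)) (e t : ℝ), V.Finite ∧ 0 < e ∧ 0 < t ∧
    (∀ v ∈ V, ∑ j, x (Y.F j) * v j ≤ 0) ∧
    ∀ y : Y.J → ℝ, (∀ j, |y j - x (Y.F j)| < e) → (∀ v ∈ V, ∑ j, y j * v j ≤ 0) →
      B.Nef (B.pb L - t • ∑ j, y j • Y.phi j)

/-- the direction of `x` is rational -/
def RatOut (Y : Last B L a x lam) : Prop :=
  ∃ (c : ℝ) (q : Y.J → ℚ), 0 < c ∧ ∀ j, x (Y.F j) = c * q j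

/-- RAT E: one coefficient. -/
def RatE (Y : Last B L a x lam) : Prop :=
  Two B L → LocalStatement Y → ∀ P, Good B L P → B.o P = x →
  (∀ E, x E = -∑ j, x (Y.F j) * B.o (Y.phi j) E) →
  ∀ j0, (∀ w, Good B L w → ∀ t : ℝ, 0 ≤ t → t ≤ 1 → t * x (Y.F j0) ≤ B.o w (Y.F j0) →
    ∀ E, t * x E ≤ B.o w E) → RatOut Y

/-- RAT D: `P` is a minimum of `L.P.A^(n-2)`. -/
def RatD (Y : Last B L a x lam) : Prop :=
  Two B L → LemmaM B L → LocalStatement Y → ∀ P, Good B L P → B.o P = x →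
  (∀ s, B.I (P ::ₘ P ::ₘ s) = 0) →
  (∀ E, x E = -∑ j, x (Y.F j) * B.o (Y.phi j) E) →
  (∀ w, Good B L w → AA B (B.pb L) P ≤ AA B (B.pb L) w) →
  AA B (B.pb L) P < AA B (B.pb L) (B.pb L) →
  (∃ q : ℚ, AA B (B.pb L) (B.pb L) = q) →
  (∀ G, B.X G → ∃ q : ℚ, AA B (B.pb L) (B.pb (B.cl G)) = q) →
  (∀ h : Y.J → ℝ, (∀ j, ¬ B.X (Y.F j) → h j = 0) → ∑ j, h j • B.cl (Y.F j) = 0 → ∀ j, h j = 0) →
  RatOut Y

end

/-- START, case D. -/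
def StartD (B : BCl r m) (L : Fin r → ℝ) : Prop :=
  Two B L → (∃ v, Good B L v ∧ AA B (B.pb L) v < AA B (B.pb L) (B.pb L)) →
  ∃ P, Good B L P ∧ (∀ w, Good B L w → AA B (B.pb L) P ≤ AA B (B.pb L) w) ∧
    {G | B.X G ∧ B.o P G ≠ 0}.Finite ∧
    ∀ n : B.D →₀ ℝ, (∀ G, n G ≠ 0 → B.X G ∧ B.o P G ≠ 0) →
      (n.sum fun G t => t • B.cl G) = 0 → n = 0

/-- START, case E: the components on `X` are independent. -/
def StartE (B : BCl r m) (L : Fin r → ℝ) : Prop :=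
  Two B L → (∀ v, Good B L v → AA B (B.pb L) v = AA B (B.pb L) (B.pb L)) →
  {G | B.X G ∧ ∃ w, Good B L w ∧ 0 < B.o w G}.Finite

end Pool.Agent.H81.XN
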