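import Mathlib

/-!
# Nefness near `L - t x F` is decided by finitely many integral vectors

`Y` is a `ℚ`-factorial projective variety of dimension `n`, `F_j` (`j ∈ J`) are prime divisors on `Y`, `K_Y = SUM a_j F_j`,
`L` is a nef Cartier divisor, `L - T SUM x_j F_j` is nef, `x_j > 0`, and the pair
`(Y, SUM (lam x_j - a_j) F_j)` is klt. If `0 < t < T` then, for `u` near `t x`, the divisor
`L - SUM u_j F_j` is nef if and only if `u.v ≤ 0` for finitely many integral vectors `v`. They are the
vectors `N (F_j.C)_j` for extremal rays on which `L` has degree zero.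
-/

namespace Pool.Agent.H81.XN

open Finset

/-- The data of a model `Y` on which the b-divisor `x` lives. -/
structure Loc (J : Type) [Fintype J] where
  /-- the curves which span extremal rays of the cone of curves of `Y` -/
  Cv : Type
  /-- the degree of the nef Cartier divisor `L` -/
  L : Cv → ℤ
  L_nonneg : ∀ C, 0 ≤ L C
  /-- the degree of `F_j` -/
  F : Cv → J → ℝ
  /-- `N F_j` is Cartier for every `j` -/
  N : ℕ
  N_pos : 0 < N
  int : ∀ C j, ∃ z : ℤ, N * F C j = z
  /-- `C` and `C'` span the same ray -/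
  same : Cv → Cv → Prop
  same_pos : ∀ C C', same C C' → ∃ r : ℝ, 0 < r ∧ (L C' : ℝ) = r * L C ∧ ∀ j, F C' j = r * F C j
  /-- `K_Y = SUM a_j F_j` -/
  a : J → ℝ
  x : J → ℝ
  lam : ℝ
  lam_nonneg : 0 ≤ lam
  T : ℝ
  T_pos : 0 < T
  /-- `L - T SUM x_j F_j` is nef -/
  nef_T : ∀ C, 0 ≤ L C - T * ∑ j, x j * F C j
  /-- `L - SUM u_j F_j` is nef -/
  nef : (J → ℝ) → Prop
  nef_deg : ∀ u, nef u → ∀ C, 0 ≤ L C - ∑ j, u j * F C j
  /-- the pair `(Y, SUM d_j F_j)` is klt, `d_j > 0` -/
  klt : (J → ℝ) → Prop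
  /-- the bound `2n` for the length of an extremal ray -/
  b : ℝ
  b_nonneg : 0 ≤ b
  /-- The pair `(Y, SUM (lam x_j - a_j) F_j)` is klt; this is an open condition. -/
  klt_near : ∃ η : ℝ, 0 < η ∧ ∀ d : J → ℝ, (∀ j, |d j - (lam * x j - a j)| ≤ η) → klt d
  /-- Cone theorem, with the bound of Kawamata 1991 on the length: if `(Y, SUM d_j F_j)` is klt and `M` is
  nef and `K_Y + SUM d_j F_j + M` is not nef, it is negative on an extremal ray which is spanned by a
  curve `C` with `-(K_Y + SUM d_j F_j).C ≤ b`, `b = 2n`. Here `M = c (L - s SUM x_j F_j)`, `0 ≤ s ≤ T`. -/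
  cone : ∀ (d u : J → ℝ) (c s : ℝ), klt d → 0 < c → 0 ≤ s → s ≤ T →
    (∀ j, a j + d j - c * s * x j = -(c * u j)) → ¬ nef u →
    ∃ C, L C - ∑ j, u j * F C j < 0 ∧ -∑ j, (a j + d j) * F C j ≤ b
  /-- Kawamata 1991: an extremal ray on which `K_Y + SUM d_j F_j` is negative contains a curve `C'` with
  `-(K_Y + SUM d_j F_j).C' ≤ b`. -/
  length : ∀ (d : J → ℝ) (C : Cv), klt d → ∑ j, (a j + d j) * F C j < 0 →
    ∃ C', same C C' ∧ -∑ j, (a j + d j) * F C' j ≤ b

namespace Loc

variable {J : Type} [Fintype J] (S : Loc J)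

/-- the vectors of the rays on which `L` has degree zero -/
def vecs (η : ℝ) : Set (J → ℤ) :=
  {v | ∃ C, S.L C = 0 ∧ (∀ j, (v j : ℝ) = S.N * S.F C j) ∧ η * ∑ j, |S.F C j| ≤ S.b}

theorem vecs_finite {η : ℝ} (hη : 0 < η) : (S.vecs η).Finite := by
  classical
  obtain ⟨m, hm⟩ := exists_nat_gt ((S.N : ℝ) * (S.b / η))
  have h1 : (Set.pi Set.univ fun _ => Set.Icc (-(m : ℤ)) m : Set (J → ℤ)).Finite :=
    Set.Finite.pi fun _ => Set.finite_Icc _ _
  refine h1.subset ?_
  rintro v ⟨C, -, hv, hb⟩ j -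
  have h2 : |S.F C j| ≤ S.b / η := by
    rw [le_div_iff₀ hη]
    have h3 : |S.F C j| ≤ ∑ i, |S.F C i| :=
      single_le_sum (f := fun i => |S.F C i|) (fun i _ => abs_nonneg _) (mem_univ j)
    nlinarith
  have h3 : |(v j : ℝ)| ≤ m := by
    rw [hv j, abs_mul, Nat.abs_cast]
    exact (mul_le_mul_of_nonneg_left h2 (Nat.cast_nonneg _)).trans hm.le
  rw [abs_le] at h3
  exact ⟨by exact_mod_cast h3.1, by exact_mod_cast h3.2⟩

theorem exists_vecs {t : ℝ} (ht0 : 0 < t) (ht : t < S.T) :
    ∃ V : Set (J → ℤ), V.Finite ∧ ∃ ε : ℝ, 0 < ε ∧ ∀ u : J → ℝ, (∀ j, |u j - t * S.x j| < ε) →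
      (S.nef u ↔ ∀ v ∈ V, ∑ j, u j * v j ≤ 0) := by
  classical
  obtain ⟨η, hη, hklt⟩ := S.klt_near
  have hN : (0 : ℝ) < S.N := by exact_mod_cast S.N_pos
  have hT := S.T_pos
  have hTt : 0 < S.T - t := by linarith
  -- the constant `c`
  obtain ⟨c, hc⟩ := exists_gt ((S.b * S.T + S.lam) / (S.T - t))
  have hbT : 0 ≤ S.b * S.T := mul_nonneg S.b_nonneg hT.le
  have hc0 : 0 < c := lt_of_le_of_lt
    (div_nonneg (by have := S.lam_nonneg; linarith) hTt.le) hc
  have hcT : S.b * S.T + S.lam < c * (S.T - t) := by rwa [div_lt_iff₀ hTt] at hc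
  set s := t + S.lam / c with hs
  have hcs : c * s = c * t + S.lam := by rw [hs]; field_simp
  have hs0 : 0 ≤ s := by rw [hs]; have := S.lam_nonneg; positivity
  have hsT : s ≤ S.T := by
    have h1 : c * s ≤ c * S.T := by rw [hcs]; linarith
    exact le_of_mul_le_mul_left h1 hc0
  refine ⟨S.vecs η, S.vecs_finite hη, η / c, div_pos hη hc0, fun u hu => ⟨fun h v hv => ?_, fun h => ?_⟩⟩
  · obtain ⟨C, hC, hv, -⟩ := hv
    have h1 := S.nef_deg u h C
    rw [hC] at h1
    have h2 : ∑ j, u j * (v j : ℝ) = S.N * ∑ j, u j * S.F C j := by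
      rw [mul_sum]
      exact sum_congr rfl fun j _ => by rw [hv j]; ring
    rw [h2]
    have h3 : ∑ j, u j * S.F C j ≤ 0 := by push_cast at h1; linarith
    exact mul_nonpos_of_nonneg_of_nonpos hN.le h3
  · by_contra hnef
    -- the boundary of `c (L - u F) - M`
    set d : J → ℝ := fun j => S.lam * S.x j - S.a j + c * (t * S.x j - u j) with hd
    have hdk : S.klt d := hklt d fun j => by
      have h1 := (hu j).le
      rw [le_div_iff₀ hc0] at h1
      have h2 : d j - (S.lam * S.x j - S.a j) = -(c * (u j - t * S.x j)) := by rw [hd]; ring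
      rw [h2, abs_neg, abs_mul, abs_of_pos hc0]
      linarith
    obtain ⟨C, hneg, hlen⟩ := S.cone d u c s hdk hc0 hs0 hsT
      (fun j => by rw [hcs, hd]; ring) hnef
    -- `M.C < 2n`
    have hsum : ∑ j, (S.a j + d j) * S.F C j =
        (c * s) * ∑ j, S.x j * S.F C j - c * ∑ j, u j * S.F C j := by
      rw [mul_sum, mul_sum, ← sum_sub_distrib]
      exact sum_congr rfl fun j _ => by rw [hcs, hd]; ring
    have hM : c * (S.L C - s * ∑ j, S.x j * S.F C j) < S.b := by
      have h1 : c * (S.L C - ∑ j, u j * S.F C j) < 0 := mul_neg_of_pos_of_neg hc0 hneg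
      rw [hsum] at hlen
      linarith
    have hnT := S.nef_T C
    -- `L.C = 0`
    have hL : S.L C = 0 := by
      have h0 := S.L_nonneg C
      by_contra hne
      have h1 : 1 ≤ S.L C := by omega
      have h1' : (1 : ℝ) ≤ S.L C := by exact_mod_cast h1
      have h2 : s * (S.T * ∑ j, S.x j * S.F C j) ≤ s * S.L C :=
        mul_le_mul_of_nonneg_left (by linarith) hs0
      have h3 : (S.T - s) * S.L C * c ≤ S.b * S.T := by
        have h4 : S.T * (c * (S.L C - s * ∑ j, S.x j * S.F C j)) ≤ S.T * S.b :=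
          mul_le_mul_of_nonneg_left hM.le hT.le
        nlinarith
      have h5 : c * (S.T - s) * S.L C ≤ S.b * S.T := by linarith
      have h6 : S.b * S.T < c * (S.T - s) := by
        have : c * (S.T - s) = c * (S.T - t) - S.lam := by
          have := hcs
          linear_combination -hcs
        linarith
      have h7 : c * (S.T - s) * 1 ≤ c * (S.T - s) * S.L C :=
        mul_le_mul_of_nonneg_left h1' (by linarith)
      linarith
    rw [hL] at hnT hneg
    push_cast at hnT hneg
    have hxF : ∑ j, S.x j * S.F C j ≤ 0 := by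
      by_contra hlt
      push Not at hlt
      have := mul_pos hT hlt
      linarith
    -- the vertex of the cube
    set e : J → ℝ := fun j => S.lam * S.x j - S.a j - η * SignType.sign (S.F C j) with he
    have hek : S.klt e := hklt e fun j => by
      have h2 : e j - (S.lam * S.x j - S.a j) = -(η * SignType.sign (S.F C j)) := by rw [he]; ring
      rw [h2, abs_neg, abs_mul, abs_of_pos hη]
      have h3 : |((SignType.sign (S.F C j) : SignType) : ℝ)| ≤ 1 := by
        rcases lt_trichotomy (S.F C j) 0 with h | h | h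
        · simp [h]
        · simp [h]
        · simp [h]
      nlinarith
    have hsg : ∀ C', S.same C C' → ∑ j, (S.a j + e j) * S.F C' j =
        S.lam * ∑ j, S.x j * S.F C' j - η * ∑ j, |S.F C' j| := by
      intro C' hC'
      obtain ⟨r, hr, -, hF⟩ := S.same_pos C C' hC'
      rw [mul_sum, mul_sum, ← sum_sub_distrib]
      refine sum_congr rfl fun j _ => ?_
      have h1 : (SignType.sign (S.F C j) : ℝ) * S.F C' j = |S.F C' j| := by
        rw [hF j, abs_mul, abs_of_pos hr]
        have h2 : (SignType.sign (S.F C j) : ℝ) * S.F C j = |S.F C j| := sign_mul_self _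
        linear_combination r * h2
      have h3 : S.a j + e j = S.lam * S.x j - η * SignType.sign (S.F C j) := by rw [he]; ring
      rw [h3, sub_mul, mul_assoc, mul_assoc η, h1]
    have hsgC : ∑ j, (S.a j + e j) * S.F C j =
        S.lam * ∑ j, S.x j * S.F C j - η * ∑ j, |S.F C j| := by
      rw [mul_sum, mul_sum, ← sum_sub_distrib]
      refine sum_congr rfl fun j _ => ?_
      have h2 : (SignType.sign (S.F C j) : ℝ) * S.F C j = |S.F C j| := sign_mul_self _
      have h3 : S.a j + e j = S.lam * S.x j - η * SignType.sign (S.F C j) := by rw [he]; ring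
      rw [h3, sub_mul, mul_assoc, mul_assoc η, h2]
    -- `F.C ≠ 0`
    have hFC : 0 < ∑ j, |S.F C j| := by
      by_contra hle
      have h0 : ∀ j, S.F C j = 0 := by
        intro j
        have h1 : |S.F C j| ≤ ∑ i, |S.F C i| :=
          single_le_sum (f := fun i => |S.F C i|) (fun i _ => abs_nonneg _) (mem_univ j)
        have h2 : |S.F C j| ≤ 0 := by linarith
        exact abs_eq_zero.1 (le_antisymm h2 (abs_nonneg _))
      have h1 : ∑ j, u j * S.F C j = 0 := sum_eq_zero fun j _ => by rw [h0 j, mul_zero]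
      rw [h1] at hneg
      linarith
    have hKe : ∑ j, (S.a j + e j) * S.F C j < 0 := by
      rw [hsgC]
      have h1 : S.lam * ∑ j, S.x j * S.F C j ≤ 0 :=
        mul_nonpos_of_nonneg_of_nonpos S.lam_nonneg hxF
      have h2 := mul_pos hη hFC
      linarith
    obtain ⟨C', hsame, hlen'⟩ := S.length e C hek hKe
    obtain ⟨r, hr, hLr, hFr⟩ := S.same_pos C C' hsame
    rw [hsg C' hsame] at hlen'
    have hxF' : ∑ j, S.x j * S.F C' j = r * ∑ j, S.x j * S.F C j := by
      rw [mul_sum]
      exact sum_congr rfl fun j _ => by rw [hFr j]; ring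
    have hb : η * ∑ j, |S.F C' j| ≤ S.b := by
      have h1 : S.lam * ∑ j, S.x j * S.F C' j ≤ 0 := by
        rw [hxF']
        exact mul_nonpos_of_nonneg_of_nonpos S.lam_nonneg
          (mul_nonpos_of_nonneg_of_nonpos hr.le hxF)
      linarith
    have hL' : S.L C' = 0 := by
      rw [hL] at hLr
      push_cast at hLr
      rw [mul_zero] at hLr
      exact_mod_cast hLr
    choose z hz using S.int C'
    have h1 := h z ⟨C', hL', fun j => (hz j).symm, hb⟩
    have h2 : ∑ j, u j * (z j : ℝ) = S.N * (r * ∑ j, u j * S.F C j) := by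
      rw [mul_sum, mul_sum]
      exact sum_congr rfl fun j _ => by rw [← hz j, hFr j]; ring
    rw [h2] at h1
    have h3 : 0 < ∑ j, u j * S.F C j := by linarith
    have h4 : 0 < S.N * (r * ∑ j, u j * S.F C j) := by positivity
    linarith

end Loc

end Pool.Agent.H81.XN
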