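import Pool.Agent.H81.XN.Spec
import Pool.Agent.H81.XN.Loc

/-!
# Nefness near `L - t x` on the last model
-/

namespace Pool.Agent.H81.XN

open Finset Pool.Agent.H54.XN

variable {r m : ℕ} {B : BCl r m} {L : Fin r → ℝ} {a : B.D → ℕ} {x : B.D → ℝ} {lam : ℝ}

theorem nef_between (Y : Last B L a x lam) (hL : B.Nef (B.pb L)) {T : ℝ} (hT : 0 < T)
    (hn : B.Nef (B.pb L - T • ∑ j, x (Y.F j) • Y.phi j)) {s : ℝ} (hs0 : 0 ≤ s) (hsT : s ≤ T) :
    B.Nef (B.pb L - s • ∑ j, x (Y.F j) • Y.phi j) := by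
  have h1 : B.pb L - s • ∑ j, x (Y.F j) • Y.phi j =
      (1 - s / T) • B.pb L + (s / T) • (B.pb L - T • ∑ j, x (Y.F j) • Y.phi j) := by
    have h2 : s / T * T = s := by field_simp
    rw [smul_sub, smul_smul, h2, sub_smul, one_smul]
    abel
  rw [h1]
  have h3 : s / T ≤ 1 := by rwa [div_le_one hT]
  exact B.nef_add _ _ (B.nef_smul _ _ (by linarith) hL)
    (B.nef_smul _ _ (div_nonneg hs0 hT.le) hn)

/-- the data of `Loc` -/
noncomputable def Last.loc (Y : Last B L a x lam) (hlam : 0 ≤ lam) (hL : B.Nef (B.pb L)) (T : ℝ)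
    (hT : 0 < T) (hn : B.Nef (B.pb L - T • ∑ j, x (Y.F j) • Y.phi j)) : Loc Y.J where
  Cv := Y.Cv
  L C := Y.l C
  L_nonneg C := by positivity
  F C j := Y.f C j / Y.N
  N := Y.N
  N_pos := Y.N_pos
  int C j := ⟨Y.f C j, by
    have : (Y.N : ℝ) ≠ 0 := by exact_mod_cast Y.N_pos.ne'
    field_simp⟩
  same C C' := ∃ p : ℝ, 0 < p ∧ (Y.l C' : ℝ) = p * Y.l C ∧ ∀ j, (Y.f C' j : ℝ) = p * Y.f C j
  same_pos C C' := by
    rintro ⟨p, hp, h1, h2⟩
    refine ⟨p, hp, by push_cast; exact h1, fun j => ?_⟩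
    rw [h2 j]; ring
  a j := a (Y.F j)
  x j := x (Y.F j)
  lam := lam
  lam_nonneg := hlam
  T := T
  T_pos := hT
  b := 2 * (m + 4)
  b_nonneg := by positivity
  nef_T C := by
    have h1 := Y.deg 1 (fun j => T * x (Y.F j)) (by
      rw [one_smul]
      have h2 : ∑ j, (T * x (Y.F j)) • Y.phi j = T • ∑ j, x (Y.F j) • Y.phi j := by
        rw [smul_sum]
        exact sum_congr rfl fun j _ => by rw [smul_smul]
      rw [h2]; exact hn) C
    have h3 : ∑ j, T * x (Y.F j) * ((Y.f C j : ℝ) / Y.N) =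
        T * ∑ j, x (Y.F j) * ((Y.f C j : ℝ) / Y.N) := by
      rw [mul_sum]
      exact sum_congr rfl fun j _ => by ring
    rw [h3] at h1
    push_cast
    linarith
  nef u := B.Nef (B.pb L - ∑ j, u j • Y.phi j)
  nef_deg u hu C := by
    have h1 := Y.deg 1 u (by rw [one_smul]; exact hu) C
    push_cast
    linarith
  klt d := ∀ j, |d j - (lam * x (Y.F j) - a (Y.F j))| < Y.eps
  klt_near := ⟨Y.eps / 2, by have := Y.eps_pos; linarith, fun d hd j => by
    have := hd j; have := Y.eps_pos; linarith⟩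
  cone d u c s hd hc hs0 hsT hj hu := by
    have h0 : ∀ j, c * s * x (Y.F j) - a (Y.F j) - d j = c * u j := fun j => by
      have := hj j; linarith
    have h1 : B.Nef (c • B.pb L - ∑ j, (c * s * x (Y.F j)) • Y.phi j) := by
      have h2 : c • B.pb L - ∑ j, (c * s * x (Y.F j)) • Y.phi j =
          c • (B.pb L - s • ∑ j, x (Y.F j) • Y.phi j) := by
        rw [smul_sub, smul_sum, smul_sum]
        congr 1
        refine sum_congr rfl fun j _ => ?_
        rw [smul_smul, smul_smul, mul_assoc]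
      rw [h2]
      exact B.nef_smul _ _ hc.le (nef_between Y hL hT hn hs0 hsT)
    have h2 : ¬ B.Nef (c • B.pb L - ∑ j, (c * s * x (Y.F j) - a (Y.F j) - d j) • Y.phi j) := by
      intro h3
      apply hu
      have h4 : B.pb L - ∑ j, u j • Y.phi j =
          c⁻¹ • (c • B.pb L - ∑ j, (c * s * x (Y.F j) - a (Y.F j) - d j) • Y.phi j) := by
        rw [smul_sub, smul_smul, inv_mul_cancel₀ hc.ne', one_smul, smul_sum]
        congr 1
        refine sum_congr rfl fun j _ => ?_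
        rw [h0 j, smul_smul, ← mul_assoc, inv_mul_cancel₀ hc.ne', one_mul]
      rw [h4]
      exact B.nef_smul _ _ (inv_nonneg.2 hc.le) h3
    obtain ⟨C, hC1, hC2⟩ := Y.cone d hd c _ h1 h2
    refine ⟨C, ?_, by linarith⟩
    have h5 : c * ((Y.l C : ℤ) - ∑ j, u j * ((Y.f C j : ℝ) / Y.N)) < 0 := by
      have h6 : ∑ j, (c * s * x (Y.F j) - a (Y.F j) - d j) * ((Y.f C j : ℝ) / Y.N) =
          c * ∑ j, u j * ((Y.f C j : ℝ) / Y.N) := by
        rw [mul_sum]
        exact sum_congr rfl fun j _ => by rw [h0 j]; ring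
      rw [h6] at hC1
      push_cast
      linarith
    by_contra h7
    push Not at h7
    have := mul_nonneg hc.le h7
    linarith
  length d C hd hneg := by
    obtain ⟨C', p, hp, h1, h2, h3⟩ := Y.len d hd C hneg
    exact ⟨C', ⟨p, hp, h1, h2⟩, by linarith⟩

theorem Last.local (Y : Last B L a x lam) (hlam : 0 ≤ lam) : LocalStatement Y := by
  intro hL
  obtain ⟨T, hT, hn⟩ := Y.nef
  have ht0 : 0 < T / 2 := by linarith
  obtain ⟨V, hV, ε, hε, hiff⟩ := (Y.loc hlam hL T hT hn).exists_vecs (t := T / 2) ht0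
    (show T / 2 < T by linarith)
  have hsum : ∀ (y : Y.J → ℝ) (v : Y.J → ℤ), ∑ j, T / 2 * y j * (v j : ℝ) =
      T / 2 * ∑ j, y j * v j := by
    intro y v
    rw [mul_sum]
    exact sum_congr rfl fun j _ => by ring
  have hsm : ∀ y : Y.J → ℝ, ∑ j, (T / 2 * y j) • Y.phi j = (T / 2) • ∑ j, y j • Y.phi j := by
    intro y
    rw [smul_sum]
    exact sum_congr rfl fun j _ => by rw [smul_smul]
  refine ⟨V, ε / (T / 2), T / 2, hV, div_pos hε ht0, ht0, fun v hv => ?_, fun y hy hyV => ?_⟩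
  · have h1 : B.Nef (B.pb L - ∑ j, (T / 2 * x (Y.F j)) • Y.phi j) := by
      rw [hsm fun j => x (Y.F j)]
      exact nef_between Y hL hT hn ht0.le (by linarith)
    have h2 := (hiff (fun j => T / 2 * x (Y.F j)) (fun j => by
      show |T / 2 * x (Y.F j) - T / 2 * x (Y.F j)| < ε
      simpa using hε)).1 h1 v hv
    rw [hsum fun j => x (Y.F j)] at h2
    by_contra h3
    push Not at h3
    have := mul_pos ht0 h3
    linarith
  · have h1 := (hiff (fun j => T / 2 * y j) (fun j => by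
      show |T / 2 * y j - T / 2 * x (Y.F j)| < ε
      have h2 := hy j
      rw [lt_div_iff₀ ht0] at h2
      rw [← mul_sub, abs_mul, abs_of_pos ht0]
      linarith)).2 fun v hv => by
        rw [hsum y]
        exact mul_nonpos_of_nonneg_of_nonpos ht0.le (hyV v hv)
    have h2 : B.Nef (B.pb L - ∑ j, (T / 2 * y j) • Y.phi j) := h1
    rwa [hsm y] at h2

end Pool.Agent.H81.XN
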