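import Pool.Agent.H54.XN.BCl
import Pool.Agent.H55.XN.Data

/-!
# MP_5ee2d0_ag: nef divisors of numerical dimension two

The dimension of `X` is `n = m + 4`.
-/

namespace Pool.Agent.H81.XN

open Pool.Agent.H54.XN

variable {r m : ℕ}

/-- the number `a.b.A^(n-2)` -/
def AA (B : BCl r m) (a b : B.V) : ℝ := B.I (a ::ₘ b ::ₘ Multiset.replicate (m + 2) (B.pb B.A))

/-- `L` is nef, `L^3` is numerically trivial and `L^2` is not. -/
structure Two (B : BCl r m) (L : Fin r → ℝ) : Prop where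
  nef : B.Nef (B.pb L)
  cube : ∀ s, B.I (B.pb L ::ₘ B.pb L ::ₘ B.pb L ::ₘ s) = 0
  pos : 0 < AA B (B.pb L) (B.pb L)

/-- `∑ w_i e_i` -/
def lc {V ι : Type} [AddCommGroup V] [Module ℝ V] (s : Finset ι) (e : ι → V) (w : ι → ℝ) : V :=
  ∑ i ∈ s, w i • e i

/-- `c l - ∑ w_i e_i` -/
def mlc {V ι : Type} [AddCommGroup V] [Module ℝ V] (l : V) (s : Finset ι) (e : ι → V) (c : ℝ)
    (w : ι → ℝ) : V := c • l - lc s e w

/-- `∑ w_i e_i` -/
def sm (B : BCl r m) {ι : Type} (s : Finset ι) (e : ι → B.V) (w : ι → ℝ) : B.V := lc s e w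

/-- `c L - ∑ w_i e_i` -/
def mb (B : BCl r m) (L : Fin r → ℝ) {ι : Type} (s : Finset ι) (e : ι → B.V) (c : ℝ) (w : ι → ℝ) : B.V :=
  mlc (B.pb L) s e c w

/-- Let `x` be the b-divisor of the Lelong numbers of a current `T` in the class of `L`, and let `lam` be
smaller than the log canonical threshold of `T`. `Y → X` is `ℚ`-factorial, its exceptional divisors are those
`E` with `a_E ≤ lam x_E`, where `a_E` are the discrepancies (Birkar, Cascini, Hacon and McKernan 2010). Let
`F_j`, `j ∈ J`, be the prime divisors of `Y` with `x_j > 0`. The program for `L - t ∑ x_j F_j`, `t > 0` small,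
with scaling of an ample divisor consists of small, `L`-trivial steps (the length of an extremal ray is at
most `2n`) and stops at the model `Y'`. `Y'` is `ℚ`-factorial and terminal, `L` is a Cartier divisor on `Y'`,
and `K = ∑ a_j F_j`. -/
structure LastM (B : BCl r m) (L : Fin r → ℝ) (a : B.D → ℕ) (x : B.D → ℝ) (lam : ℝ)
    (J : Finset B.D) where
  /-- the pull back of the divisor `F_j` of `Y'` to the models -/
  phi : B.D → B.V
  tr_phi : ∀ j ∈ J, B.tr (phi j) = 0
  o_phi : ∀ j ∈ J, B.o (phi j) j = -1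
  /-- the prime divisors of `Y'` are those of `X` and the `F_j` -/
  o_phi' : ∀ j ∈ J, ∀ G, G ∈ J ∨ B.X G → G ≠ j → B.o (phi j) G = 0
  /-- a multiple of `F_j` is a Cartier divisor -/
  rat : ∀ j ∈ J, ∀ E, ∃ q : ℚ, B.o (phi j) E = q
  ratI : ∀ i ∈ J, ∀ j ∈ J, ∃ q : ℚ, AA B (phi i) (phi j) = q
  nef : ∃ t : ℝ, 0 < t ∧ B.Nef (mb B L J phi 1 fun j => t * x j)
  /-- negativity lemma: `L - t x` is a nef b-class, so it is at most the pull back of its class on `Y'` -/
  le : ∀ E, -∑ j ∈ J, x j * B.o (phi j) E ≤ x E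
  /-- rational curves which generate extremal rays of `Y'` -/
  Cv : Type
  /-- the intersection numbers with `L` and with `N F_j`, a Cartier divisor -/
  l : Cv → ℕ
  N : ℕ
  N_pos : 0 < N
  f : Cv → B.D → ℤ
  deg : ∀ (c : ℝ) (w : B.D → ℝ), B.Nef (mb B L J phi c w) →
    ∀ C, 0 ≤ c * l C - ∑ j ∈ J, w j * (f C j / N)
  /-- `(Y', Δ)`, `Δ = ∑ d_j F_j`, is klt if the numbers `d_j` are near the numbers `lam x_j - a_j`, which lie
  between zero and one -/
  eps : ℝ
  eps_pos : 0 < eps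
  /-- Cone theorem (Kawamata 1984, Kollár 1984): if `M = c L - ∑ w_j F_j` is nef and `K + Δ + M` is not nef then
  there is an extremal ray on which it is negative, generated by a rational curve. -/
  cone : ∀ d : B.D → ℝ, (∀ j ∈ J, |d j - (lam * x j - a j)| < eps) → ∀ (c : ℝ) (w : B.D → ℝ),
    B.Nef (mb B L J phi c w) → ¬ B.Nef (mb B L J phi c fun j => w j - a j - d j) →
    ∃ C, c * l C - ∑ j ∈ J, (w j - a j - d j) * (f C j / N) < 0
  /-- Length of extremal rays (Kawamata 1991): if `(K + Δ).C < 0` then there is a curve `C'` on the ray of `C`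
  with `-(K + Δ).C' ≤ 2n`. -/
  len : ∀ d : B.D → ℝ, (∀ j ∈ J, |d j - (lam * x j - a j)| < eps) → ∀ C,
    ∑ j ∈ J, (a j + d j) * (f C j / N) < 0 → ∃ (C' : Cv) (q : ℝ), 0 < q ∧ (l C' : ℝ) = q * l C ∧
      (∀ j ∈ J, (f C' j : ℝ) = q * f C j) ∧ -(2 * (m + 4)) ≤ ∑ j ∈ J, (a j + d j) * (f C' j / N)

/-- The last model `Y'` of the program, and a log resolution `X'` of `Y'` with a morphism to `X`. `Frm p` says
that for some `i` there is a nonzero differential form of degree `i` on `X` with values in `p L`, `chiO` is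
`χ(O_X)`. -/
structure LastRes {B : BCl r m} {L : Fin r → ℝ} (C : Cur B L) (a : B.D → ℕ) (chiO : ℤ) (Frm : ℕ → Prop)
    (T : C.C) (lam : ℝ) (J : Finset B.D) extends LastM B L a (C.nu T) lam J where
  /-- the divisors `F_j` and the exceptional divisors of `X' → X` -/
  s : ℕ
  E : Fin s → B.D
  /-- the Euler characteristic of `K + p L - ∑ k_i E_i`, `K` the canonical divisor of `X'` -/
  chi : ℕ → (Fin s → ℤ) → ℤ
  /-- the Euler characteristic is a polynomial (Snapper 1959) -/
  snapper : ∃ Q : MvPolynomial (Option (Fin s)) ℝ, ∀ (p : ℕ) (k : Fin s → ℤ),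
    (chi p k : ℝ) = MvPolynomial.eval (fun o => Option.elim o (p : ℝ) fun i => (k i : ℝ)) Q
  /-- `χ(K_X') = (-1)^n χ(O_X') = (-1)^n χ(O_X) = χ(K_X) = χ(O_X)` by Serre duality, since `K_X ~ 0` -/
  chi_zero : chi 0 0 = chiO
  /-- If the Lelong numbers of `T` are the multiplicities of the divisor `∑ x_j F_j` of `Y'` then the
  multiplier ideal sheaf of `p T` on `X'` is `O(-∑ ⌊p x_i⌋ E_i)` (Skoda, Hölder). Demailly, Peternell and
  Schneider 2001: a nonzero cohomology class of `K + p L - ∑ ⌊p x_i⌋ E_i` gives a differential form on `X'`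
  with values in `p L`. -/
  dps : (∀ E, C.nu T E = -∑ j ∈ J, C.nu T j * B.o (phi j) E) → ∀ p : ℕ, 0 < p →
    chi p (fun i => ⌊p * C.nu T (E i)⌋) ≠ 0 → Frm p

/-- A smooth projective variety `X` of dimension `n` with `K_X ~ 0` and `H^1(X, O_X) = 0`, and a nef divisor
`L` with `L^3 = 0`, `L^2 ≠ 0`. `chi p` is the Euler characteristic of `p L`. -/
structure Sys {B : BCl r m} {L : Fin r → ℝ} (C : Cur B L) (chi : ℕ → ℤ) (Frm : ℕ → Prop) where
  /-- discrepancies -/
  a : B.D → ℕ
  a_X : ∀ G, B.X G → a G = 0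
  /-- Demailly 1992: approximation of `T` by multiplier ideals; Hironaka 1964: log resolution -/
  app : ∀ T (e : ℝ), 0 < e → Nonempty (Pool.Agent.H33.FT.LogRes a (C.nu T) (fun E => ¬ B.X E) e)
  /-- Jonsson and Mustaţă 2014, Xu 2020: the log canonical threshold of `T` is computed by a quasi-monomial
  valuation -/
  quasi : ∀ T (c : ℝ), 0 < c → (∀ E, c * C.nu T E ≤ a E + 1) →
    (∀ c', c < c' → ∃ E, a E + 1 < c' * C.nu T E) → Nonempty (Pool.Agent.H33.FT.Quasi B.D a (C.nu T) c)
  /-- Skoda: if the Lelong numbers of `T` are zero then the multiplier ideal sheaves of the multiples of `T` are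
  trivial. Demailly, Peternell and Schneider 2001: a nonzero cohomology class gives a differential form. -/
  dps : ∀ T, (∀ E, C.nu T E = 0) → ∀ p : ℕ, 0 < p → chi p ≠ 0 → Frm p
  /-- The program for `T` and `lam`, `J` the set of the divisors `F_j`. If it does not stop then it is an
  infinite sequence of steps. -/
  prog : ∀ T (lam lam' : ℝ) (J : Finset B.D), 0 < lam → lam < lam' → (∀ E, lam' * C.nu T E ≤ a E + 1) →
    (∀ E, E ∈ J ↔ 0 < C.nu T E ∧ (B.X E ∨ a E < lam * C.nu T E)) →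
    (∀ E, 0 < C.nu T E → (a E : ℝ) ≠ lam * C.nu T E) →
    Nonempty (Pool.Agent.H55.XN.Steps a (C.nu T) lam) ∨ Nonempty (LastRes C a (chi 0) Frm T lam J)

end Pool.Agent.H81.XN
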