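import Pool.Agent.H81.XN.Defs
import Pool.Agent.H54.XN.Lin

/-!
# MP_5ee2d0_ag: products of good classes in dimension `n`

After helper87 (`Pool.Agent.H87.FB.Forms`), the case of dimension four.
-/

namespace Pool.Agent.H81.XN

open Pool.Agent.H54.XN Multiset

variable {r m : ℕ} {B : BCl r m} {L : Fin r → ℝ}

theorem nef_zero : B.Nef 0 := by
  have h := B.nef_smul 0 (B.pb B.A) le_rfl B.nef_A
  rwa [zero_smul] at h

/-- the elements of `s` are nef and at least `A` -/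
def Ge (B : BCl r m) (s : Multiset B.V) : Prop := ∀ h ∈ s, B.Nef h ∧ B.Nef (h - B.pb B.A)

theorem Ge.nef {s : Multiset B.V} (hs : Ge B s) : ∀ a ∈ s, B.Nef a := fun a ha => (hs a ha).1

theorem Ge.cons {s : Multiset B.V} {h : B.V} (hn : B.Nef h) (hA : B.Nef (h - B.pb B.A)) (hs : Ge B s) :
    Ge B (h ::ₘ s) := by
  intro a ha
  rcases mem_cons.1 ha with rfl | ha
  · exact ⟨hn, hA⟩
  · exact hs a ha

theorem Ge.head {s : Multiset B.V} {h : B.V} (hs : Ge B (h ::ₘ s)) : B.Nef h ∧ B.Nef (h - B.pb B.A) :=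
  hs h (mem_cons_self _ _)

theorem Ge.tail {s : Multiset B.V} {h : B.V} (hs : Ge B (h ::ₘ s)) : Ge B s :=
  fun a ha => hs a (mem_cons_of_mem ha)

theorem ge_rep {H : B.V} (hn : B.Nef H) (hA : B.Nef (H - B.pb B.A)) (k : ℕ) : Ge B (replicate k H) := by
  intro a ha
  rw [eq_of_mem_replicate ha]
  exact ⟨hn, hA⟩

theorem ge_A (k : ℕ) : Ge B (replicate k (B.pb B.A)) :=
  ge_rep B.nef_A (by rw [sub_self]; exact nef_zero) k

theorem nef_cons {a : B.V} {s : Multiset B.V} (ha : B.Nef a) (hs : ∀ x ∈ s, B.Nef x) :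
    ∀ x ∈ a ::ₘ s, B.Nef x := by
  intro x hx
  rcases mem_cons.1 hx with rfl | hx
  · exact ha
  · exact hs x hx

/-- A good class is at most `L`. -/
theorem I_le {v : B.V} (hv : Good B L v) {s : Multiset B.V} (hs : ∀ a ∈ s, B.Nef a) :
    B.I (v ::ₘ s) ≤ B.I (B.pb L ::ₘ s) := by
  have h := B.eff (B.pb L - v) (by rw [BCl.tr_sub, B.tr_pb, hv.2.1, sub_self]) (fun E => by
    rw [BCl.o_sub, BCl.o_pb', zero_sub]
    have := hv.2.2 E
    linarith) s hs
  rw [BCl.I_sub] at h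
  linarith

/-- the product with classes which are at least `A` -/
theorem I_ge (s : Multiset B.V) : ∀ t : Multiset B.V, (∀ a ∈ t, B.Nef a) → Ge B s →
    B.I (replicate (card s) (B.pb B.A) + t) ≤ B.I (s + t) := by
  induction s using Multiset.induction_on with
  | empty => intro t _ _; simp
  | cons h s ih =>
    intro t ht hs
    have h1 : B.I (replicate (card s) (B.pb B.A) + (B.pb B.A ::ₘ t)) ≤ B.I (s + (B.pb B.A ::ₘ t)) :=
      ih _ (nef_cons B.nef_A ht) hs.tail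
    have h2 : 0 ≤ B.I ((h - B.pb B.A) ::ₘ (s + t)) :=
      B.nonneg _ (nef_cons hs.head.2 fun a ha => by
        rcases mem_add.1 ha with ha | ha
        · exact hs.tail.nef a ha
        · exact ht a ha)
    rw [BCl.I_sub] at h2
    rw [card_cons, replicate_succ, cons_add, cons_add, ← add_cons]
    rw [add_cons _ s] at h1
    linarith

theorem I_ge2 {a b : B.V} (ha : B.Nef a) (hb : B.Nef b) {s : Multiset B.V} (hs : Ge B s)
    (hc : card s = m + 2) : AA B a b ≤ B.I (a ::ₘ b ::ₘ s) := by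
  have h := I_ge s (a ::ₘ b ::ₘ 0) (nef_cons ha (nef_cons hb (by simp))) hs
  rw [hc] at h
  have e : ∀ s : Multiset B.V, s + (a ::ₘ b ::ₘ 0) = a ::ₘ b ::ₘ s := by
    intro s
    rw [add_cons, add_cons, add_zero]
  rw [e, e] at h
  exact h

theorem LLv {v : B.V} {s : Multiset B.V} (hT : Two B L) (hv : Good B L v) (hs : ∀ a ∈ s, B.Nef a) :
    B.I (B.pb L ::ₘ B.pb L ::ₘ v ::ₘ s) = 0 := by
  refine le_antisymm ?_ (B.nonneg _ (nef_cons hT.nef (nef_cons hT.nef (nef_cons hv.1 hs))))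
  rw [cons_swap _ v, cons_swap _ v]
  exact (I_le hv (nef_cons hT.nef (nef_cons hT.nef hs))).trans (hT.cube s).le

theorem Lvv {v v' : B.V} {s : Multiset B.V} (hT : Two B L) (hv : Good B L v) (hv' : Good B L v')
    (hs : ∀ a ∈ s, B.Nef a) : B.I (B.pb L ::ₘ v ::ₘ v' ::ₘ s) = 0 := by
  refine le_antisymm ?_ (B.nonneg _ (nef_cons hT.nef (nef_cons hv.1 (nef_cons hv'.1 hs))))
  rw [cons_swap _ v]
  exact (I_le hv (nef_cons hT.nef (nef_cons hv'.1 hs))).trans (LLv hT hv' hs).le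

theorem vvv {v v' v'' : B.V} {s : Multiset B.V} (hT : Two B L) (hv : Good B L v) (hv' : Good B L v')
    (hv'' : Good B L v'') (hs : ∀ a ∈ s, B.Nef a) : B.I (v ::ₘ v' ::ₘ v'' ::ₘ s) = 0 := by
  refine le_antisymm ?_ (B.nonneg _ (nef_cons hv.1 (nef_cons hv'.1 (nef_cons hv''.1 hs))))
  exact (I_le hv (nef_cons hv'.1 (nef_cons hv''.1 hs))).trans (Lvv hT hv' hv'' hs).le

/-- the second argument -/
theorem I2_sub (a b b' : B.V) (s : Multiset B.V) :
    B.I (a ::ₘ (b - b') ::ₘ s) = B.I (a ::ₘ b ::ₘ s) - B.I (a ::ₘ b' ::ₘ s) := by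
  rw [cons_swap, BCl.I_sub, cons_swap b, cons_swap b']

theorem I2_add (a b b' : B.V) (s : Multiset B.V) :
    B.I (a ::ₘ (b + b') ::ₘ s) = B.I (a ::ₘ b ::ₘ s) + B.I (a ::ₘ b' ::ₘ s) := by
  rw [cons_swap, BCl.I_add, cons_swap b, cons_swap b']

theorem I2_smul (a : B.V) (t : ℝ) (b : B.V) (s : Multiset B.V) :
    B.I (a ::ₘ (t • b) ::ₘ s) = t * B.I (a ::ₘ b ::ₘ s) := by
  rw [cons_swap, BCl.I_smul, cons_swap b]

theorem sq_sub_smul (w z : B.V) (l : ℝ) (s : Multiset B.V) :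
    B.I ((w - l • z) ::ₘ (w - l • z) ::ₘ s) =
      B.I (w ::ₘ w ::ₘ s) - 2 * l * B.I (w ::ₘ z ::ₘ s) + l ^ 2 * B.I (z ::ₘ z ::ₘ s) := by
  rw [BCl.I_sub, BCl.I_smul, I2_sub, I2_sub, I2_smul, I2_smul, cons_swap z w]
  ring

/-- An isotropic vector which is orthogonal to a positive vector is in the kernel of the form. -/
theorem ker {s : Multiset B.V} {w z : B.V} (hs : ∀ a ∈ s, B.Nef a) (hz : 0 < B.I (z ::ₘ z ::ₘ s))
    (hwz : B.I (w ::ₘ z ::ₘ s) = 0) (hww : B.I (w ::ₘ w ::ₘ s) = 0) (u : B.V) :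
    B.I (w ::ₘ u ::ₘ s) = 0 := by
  set l := B.I (u ::ₘ z ::ₘ s) / B.I (z ::ₘ z ::ₘ s) with hl
  set u' := u - l • z with hu'
  have hu'z : B.I (u' ::ₘ z ::ₘ s) = 0 := by
    rw [hu', BCl.I_sub, BCl.I_smul, hl]
    field_simp
    ring
  have hwu : B.I (w ::ₘ u' ::ₘ s) = B.I (w ::ₘ u ::ₘ s) := by
    rw [hu', I2_sub, I2_smul, hwz, mul_zero, sub_zero]
  have hq : ∀ t : ℝ, 2 * t * B.I (w ::ₘ u' ::ₘ s) + t ^ 2 * B.I (u' ::ₘ u' ::ₘ s) ≤ 0 := by
    intro t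
    have h1 := B.index s (w + t • u') z hs hz (by
      rw [BCl.I_add, BCl.I_smul, hwz, hu'z, mul_zero, add_zero])
    rw [BCl.I_add, BCl.I_smul, I2_add, I2_add, I2_smul, I2_smul, hww, cons_swap u' w] at h1
    nlinarith
  rw [← hwu]
  by_contra hne
  set p := B.I (w ::ₘ u' ::ₘ s) with hp
  set q := B.I (u' ::ₘ u' ::ₘ s) with hq'
  have h1 : 0 < p ^ 2 := by positivity
  have h2 : 0 < |q| + 1 := by positivity
  have h3 := hq (p / (|q| + 1))
  have h4 : 2 * (p / (|q| + 1)) * p + (p / (|q| + 1)) ^ 2 * q =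
      p ^ 2 * (2 * (|q| + 1) + q) / (|q| + 1) ^ 2 := by
    field_simp
  rw [h4] at h3
  have h5 : 0 < 2 * (|q| + 1) + q := by
    have := neg_abs_le q
    have := abs_nonneg q
    linarith
  have h6 : 0 < p ^ 2 * (2 * (|q| + 1) + q) / (|q| + 1) ^ 2 := by positivity
  linarith

section

variable (hT : Two B L)
include hT

theorem LLs {s : Multiset B.V} (hs : Ge B s) (hc : card s = m + 2) :
    0 < B.I (B.pb L ::ₘ B.pb L ::ₘ s) :=
  hT.pos.trans_le (I_ge2 hT.nef hT.nef hs hc)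

/-- the vector `A + L` is positive for the form with `L` and `s` -/
theorem zL {s : Multiset B.V} (hs : Ge B s) (hc : card s = m + 1) :
    0 < B.I ((B.pb B.A + B.pb L) ::ₘ (B.pb B.A + B.pb L) ::ₘ B.pb L ::ₘ s) := by
  have h1 := B.nonneg _ (nef_cons B.nef_A (nef_cons B.nef_A (nef_cons hT.nef hs.nef)))
  have h2 := LLs hT (s := B.pb B.A ::ₘ s) (hs.cons B.nef_A (by rw [sub_self]; exact nef_zero))
    (by rw [card_cons, hc])
  have e1 : B.I (B.pb B.A ::ₘ B.pb L ::ₘ B.pb L ::ₘ s) =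
      B.I (B.pb L ::ₘ B.pb L ::ₘ B.pb B.A ::ₘ s) := by
    rw [cons_swap (B.pb B.A), cons_swap (B.pb B.A)]
  have e2 : B.I (B.pb L ::ₘ B.pb B.A ::ₘ B.pb L ::ₘ s) =
      B.I (B.pb L ::ₘ B.pb L ::ₘ B.pb B.A ::ₘ s) := by
    rw [cons_swap (B.pb B.A)]
  rw [BCl.I_add, I2_add, I2_add, hT.cube, e1, e2]
  linarith

theorem Lv_pos {v : B.V} (hv : Good B L v) (hpos : 0 < AA B (B.pb L) v) {s : Multiset B.V}
    (hs : Ge B s) (hc : card s = m + 2) : 0 < B.I (B.pb L ::ₘ v ::ₘ s) :=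
  hpos.trans_le (I_ge2 hT.nef hv.1 hs hc)

/-- the vector `A + L` is positive for the form with `v` and `s` -/
theorem zv {v : B.V} (hv : Good B L v) (hpos : 0 < AA B (B.pb L) v) {s : Multiset B.V}
    (hs : Ge B s) (hc : card s = m + 1) :
    0 < B.I ((B.pb B.A + B.pb L) ::ₘ (B.pb B.A + B.pb L) ::ₘ v ::ₘ s) := by
  have h1 := B.nonneg _ (nef_cons B.nef_A (nef_cons B.nef_A (nef_cons hv.1 hs.nef)))
  have h2 := Lv_pos hT hv hpos (s := B.pb B.A ::ₘ s)
    (hs.cons B.nef_A (by rw [sub_self]; exact nef_zero)) (by rw [card_cons, hc])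
  have e1 : B.I (B.pb B.A ::ₘ B.pb L ::ₘ v ::ₘ s) = B.I (B.pb L ::ₘ v ::ₘ B.pb B.A ::ₘ s) := by
    rw [cons_swap (B.pb B.A), cons_swap (B.pb B.A)]
  have e2 : B.I (B.pb L ::ₘ B.pb B.A ::ₘ v ::ₘ s) = B.I (B.pb L ::ₘ v ::ₘ B.pb B.A ::ₘ s) := by
    rw [cons_swap (B.pb B.A)]
  rw [BCl.I_add, I2_add, I2_add, LLv hT hv hs.nef, e1, e2]
  linarith

/-- Let `w` be the difference of two good classes, `L.w.A^(n-2) = 0`. Then `L.w.u.s = 0` for all `u`. -/
theorem Lw {v₁ v₂ : B.V} (h₁ : Good B L v₁) (h₂ : Good B L v₂) (h0 : AA B (B.pb L) (v₁ - v₂) = 0)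
    (t : Multiset B.V) : ∀ k : ℕ, Ge B t → card t + k = m + 1 → ∀ u : B.V,
    B.I ((v₁ - v₂) ::ₘ u ::ₘ B.pb L ::ₘ (t + replicate k (B.pb B.A))) = 0 := by
  have hww : ∀ s : Multiset B.V, (∀ a ∈ s, B.Nef a) →
      B.I ((v₁ - v₂) ::ₘ (v₁ - v₂) ::ₘ B.pb L ::ₘ s) = 0 := by
    intro s hs
    have e : ∀ v v' : B.V, Good B L v → Good B L v' → B.I (v ::ₘ v' ::ₘ B.pb L ::ₘ s) = 0 := by
      intro v v' hv hv'
      rw [cons_swap v', cons_swap v]
      exact Lvv hT hv hv' hs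
    rw [BCl.I_sub, I2_sub, I2_sub, e _ _ h₁ h₁, e _ _ h₁ h₂, e _ _ h₂ h₁, e _ _ h₂ h₂]
    ring
  have hwL : ∀ s : Multiset B.V, (∀ a ∈ s, B.Nef a) →
      B.I ((v₁ - v₂) ::ₘ B.pb L ::ₘ B.pb L ::ₘ s) = 0 := by
    intro s hs
    have e : ∀ v : B.V, Good B L v → B.I (v ::ₘ B.pb L ::ₘ B.pb L ::ₘ s) = 0 := by
      intro v hv
      rw [cons_swap v, cons_swap v]
      exact LLv hT hv hs
    rw [BCl.I_sub, e _ h₁, e _ h₂, sub_self]
  induction t using Multiset.induction_on with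
  | empty =>
    intro k _ hk u
    rw [card_zero, zero_add] at hk
    subst hk
    rw [zero_add]
    refine ker (nef_cons hT.nef (ge_A _).nef) (zL hT (ge_A _) (card_replicate _ _)) ?_
      (hww _ (ge_A _).nef) u
    rw [I2_add, hwL _ (ge_A _).nef, add_zero, cons_swap (B.pb B.A), cons_swap (v₁ - v₂),
      ← replicate_succ]
    exact h0
  | cons h t ih =>
    intro k ht hk u
    have hk' : card t + (k + 1) = m + 1 := by
      rw [card_cons] at hk
      omega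
    have hge : Ge B (h ::ₘ t + replicate k (B.pb B.A)) := by
      intro a ha
      rcases mem_add.1 ha with ha | ha
      · exact ht a ha
      · exact ge_A k a ha
    refine ker (nef_cons hT.nef hge.nef) (zL hT hge (by rw [card_add, card_replicate, hk])) ?_
      (hww _ hge.nef) u
    rw [I2_add, hwL _ hge.nef, add_zero]
    have h1 := ih (k + 1) ht.tail hk' h
    rw [replicate_succ, add_cons] at h1
    rw [cons_add, cons_swap (B.pb L) h, cons_swap (B.pb B.A) h, cons_swap (B.pb B.A) (B.pb L)]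
    exact h1

theorem Lw' {v₁ v₂ : B.V} (h₁ : Good B L v₁) (h₂ : Good B L v₂) (h0 : AA B (B.pb L) (v₁ - v₂) = 0)
    {s : Multiset B.V} (hs : Ge B s) (hc : card s = m + 1) (u : B.V) :
    B.I ((v₁ - v₂) ::ₘ u ::ₘ B.pb L ::ₘ s) = 0 := by
  have h := Lw hT h₁ h₂ h0 s 0 hs hc u
  rwa [replicate_zero, add_zero] at h

/-- The form with a good class `v`, `L.v ≠ 0`. -/
theorem wv {v₁ v₂ : B.V} (h₁ : Good B L v₁) (h₂ : Good B L v₂) {v : B.V} (hv : Good B L v)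
    (hpos : 0 < AA B (B.pb L) v) {s : Multiset B.V} (hs : Ge B s) (hc : card s = m + 1) :
    ∃ l : ℝ, ∀ u : B.V, B.I ((v₁ - v₂) ::ₘ u ::ₘ v ::ₘ s) = l * B.I (B.pb L ::ₘ u ::ₘ v ::ₘ s) := by
  set z := B.pb B.A + B.pb L with hz
  have hLz : 0 < B.I (B.pb L ::ₘ z ::ₘ v ::ₘ s) := by
    rw [hz, I2_add, LLv hT hv hs.nef, add_zero, cons_swap (B.pb B.A)]
    exact Lv_pos hT hv hpos (hs.cons B.nef_A (by rw [sub_self]; exact nef_zero))
      (by rw [card_cons, hc])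
  set l := B.I ((v₁ - v₂) ::ₘ z ::ₘ v ::ₘ s) / B.I (B.pb L ::ₘ z ::ₘ v ::ₘ s) with hl
  refine ⟨l, fun u => ?_⟩
  have hww : B.I ((v₁ - v₂) ::ₘ (v₁ - v₂) ::ₘ v ::ₘ s) = 0 := by
    rw [BCl.I_sub, I2_sub, I2_sub, vvv hT h₁ h₁ hv hs.nef, vvv hT h₁ h₂ hv hs.nef,
      vvv hT h₂ h₁ hv hs.nef, vvv hT h₂ h₂ hv hs.nef]
    ring
  have hwL : B.I ((v₁ - v₂) ::ₘ B.pb L ::ₘ v ::ₘ s) = 0 := by
    rw [BCl.I_sub, cons_swap v₁, cons_swap v₂, Lvv hT h₁ hv hs.nef, Lvv hT h₂ hv hs.nef, sub_self]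
  have h1 := ker (w := (v₁ - v₂) - l • B.pb L) (nef_cons hv.1 hs.nef) (zv hT hv hpos hs hc) (by
      rw [← hz, BCl.I_sub, BCl.I_smul, hl]
      field_simp
      ring) (by
      rw [sq_sub_smul, hww, hwL, LLv hT hv hs.nef]
      ring) u
  rw [BCl.I_sub, BCl.I_smul] at h1
  linarith

/-- The factor does not depend on `s`. -/
theorem wv' {v₁ v₂ : B.V} (h₁ : Good B L v₁) (h₂ : Good B L v₂) {v : B.V} (hv : Good B L v)
    (hpos : 0 < AA B (B.pb L) v) : ∃ l : ℝ, ∀ s : Multiset B.V, Ge B s → card s = m + 2 →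
      B.I ((v₁ - v₂) ::ₘ v ::ₘ s) = l * B.I (B.pb L ::ₘ v ::ₘ s) := by
  obtain ⟨l, hl⟩ := wv hT h₁ h₂ hv hpos (ge_A (m + 1)) (card_replicate _ _)
  have key : ∀ t : Multiset B.V, ∀ k : ℕ, Ge B t → card t + k = m + 1 → ∀ u : B.V,
      B.I ((v₁ - v₂) ::ₘ u ::ₘ v ::ₘ (t + replicate k (B.pb B.A))) =
        l * B.I (B.pb L ::ₘ u ::ₘ v ::ₘ (t + replicate k (B.pb B.A))) := by
    intro t
    induction t using Multiset.induction_on with
    | empty =>
      intro k _ hk u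
      rw [card_zero, zero_add] at hk
      subst hk
      rw [zero_add]
      exact hl u
    | cons h t ih =>
      intro k ht hk u
      have hk' : card t + (k + 1) = m + 1 := by
        rw [card_cons] at hk
        omega
      have hge : Ge B (h ::ₘ t + replicate k (B.pb B.A)) := by
        intro a ha
        rcases mem_add.1 ha with ha | ha
        · exact ht a ha
        · exact ge_A k a ha
      have hcd : card (h ::ₘ t + replicate k (B.pb B.A)) = m + 1 := by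
        rw [card_add, card_replicate, hk]
      obtain ⟨l', hl'⟩ := wv hT h₁ h₂ hv hpos hge hcd
      have h3 := hl' (B.pb B.A)
      have h4 := ih (k + 1) ht.tail hk' h
      have e : ∀ x : B.V, x ::ₘ h ::ₘ v ::ₘ (t + replicate (k + 1) (B.pb B.A)) =
          x ::ₘ B.pb B.A ::ₘ v ::ₘ (h ::ₘ t + replicate k (B.pb B.A)) := by
        intro x
        rw [replicate_succ, add_cons, cons_add, cons_swap v h, cons_swap v (B.pb B.A),
          cons_swap h (B.pb B.A)]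
      rw [e, e, h3] at h4
      have h5 : 0 < B.I (B.pb L ::ₘ B.pb B.A ::ₘ v ::ₘ (h ::ₘ t + replicate k (B.pb B.A))) := by
        rw [cons_swap (B.pb B.A)]
        exact Lv_pos hT hv hpos (hge.cons B.nef_A (by rw [sub_self]; exact nef_zero))
          (by rw [card_cons, hcd])
      have h6 : l' = l := mul_right_cancel₀ h5.ne' h4
      rw [hl' u, h6]
  refine ⟨l, fun s hs hc => ?_⟩
  obtain ⟨h, ht⟩ := card_pos_iff_exists_mem.1 (by rw [hc]; omega : 0 < card s)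
  obtain ⟨t, rfl⟩ := exists_cons_of_mem ht
  have h1 := key t 0 hs.tail (by rw [card_cons] at hc; omega) h
  rw [replicate_zero, add_zero, cons_swap h] at h1
  exact h1

/-- Let `w` be the difference of two good classes, `L.w.A^(n-2) = 0` and `w.w.A^(n-2) = 0`. Then
`w.w.s = 0`. -/
theorem ww {v₁ v₂ : B.V} (h₁ : Good B L v₁) (h₂ : Good B L v₂)
    (h0 : AA B (B.pb L) (v₁ - v₂) = 0) (hpos : 0 < AA B (B.pb L) v₁)
    (hq : AA B (v₁ - v₂) (v₁ - v₂) = 0) {s : Multiset B.V} (hs : Ge B s) (hc : card s = m + 2) :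
    B.I ((v₁ - v₂) ::ₘ (v₁ - v₂) ::ₘ s) = 0 := by
  have hAs : ∀ v : B.V, AA B (v₁ - v₂) v = B.I ((v₁ - v₂) ::ₘ v ::ₘ replicate (m + 2) (B.pb B.A)) :=
    fun _ => rfl
  have h4 : AA B (B.pb L) v₂ = AA B (B.pb L) v₁ := by
    have := h0
    unfold AA at this ⊢
    rw [I2_sub] at this
    linarith
  obtain ⟨l₁, k₁⟩ := wv' hT h₁ h₂ h₁ hpos
  obtain ⟨l₂, k₂⟩ := wv' hT h₁ h₂ h₂ (by rw [h4]; exact hpos)
  have b₁ := k₁ _ (ge_A (m + 2)) (card_replicate _ _)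
  have b₂ := k₂ _ (ge_A (m + 2)) (card_replicate _ _)
  have h3 : B.I (B.pb L ::ₘ v₂ ::ₘ s) = B.I (B.pb L ::ₘ v₁ ::ₘ s) := by
    obtain ⟨h, ht⟩ := card_pos_iff_exists_mem.1 (by rw [hc]; omega : 0 < card s)
    obtain ⟨t, rfl⟩ := exists_cons_of_mem ht
    have := Lw' hT h₁ h₂ h0 hs.tail (by rw [card_cons] at hc; omega) h
    rw [BCl.I_sub] at this
    have e1 : ∀ v : B.V, B.I (B.pb L ::ₘ v ::ₘ h ::ₘ t) = B.I (v ::ₘ h ::ₘ B.pb L ::ₘ t) := by
      intro v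
      rw [cons_swap h (B.pb L), cons_swap v (B.pb L)]
    rw [e1, e1]
    linarith
  have h5 : l₁ = l₂ := by
    rw [hAs, I2_sub, b₁, b₂] at hq
    change l₁ * AA B (B.pb L) v₁ - l₂ * AA B (B.pb L) v₂ = 0 at hq
    rw [h4] at hq
    have : (l₁ - l₂) * AA B (B.pb L) v₁ = 0 := by linarith
    rcases mul_eq_zero.1 this with h | h
    · linarith
    · exact absurd h hpos.ne'
  rw [I2_sub, k₁ _ hs hc, k₂ _ hs hc, h3, h5, sub_self]

/-- **Theorem.** Let `w` be the difference of two good classes, `L.w.A^(n-2) = 0` and `w.w.A^(n-2) = 0`. Then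
the class of `w` is zero. -/
theorem class_zero {v₁ v₂ : B.V} (h₁ : Good B L v₁) (h₂ : Good B L v₂)
    (h0 : AA B (B.pb L) (v₁ - v₂) = 0) (hpos : 0 < AA B (B.pb L) v₁)
    (hq : AA B (v₁ - v₂) (v₁ - v₂) = 0) (s : Multiset B.V) : B.I ((v₁ - v₂) ::ₘ s) = 0 := by
  by_contra hne
  obtain ⟨H, hH, hHA, h⟩ := B.strict (v₁ - v₂) ⟨s, hne⟩
  have hge := ge_rep hH hHA (m + 2)
  have h1 := h L hT.nef (LLs hT hge (card_replicate _ _)) (by
    have := Lw' hT h₁ h₂ h0 (ge_rep hH hHA (m + 1)) (card_replicate _ _) H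
    rw [cons_swap H, ← replicate_succ] at this
    exact this)
  rw [ww hT h₁ h₂ h0 hpos hq hge (card_replicate _ _)] at h1
  exact lt_irrefl _ h1

end

/-- A b-divisor with finitely many components on `X`, the classes of which are linearly independent, is zero if
its class is zero. -/
theorem eq_zero_of_class {w : B.V} (htr : B.tr w = 0) (S : Finset B.D) (hS : ∀ G ∈ S, B.X G)
    (hw : ∀ G, B.X G → G ∉ S → B.o w G = 0) (h0 : ∀ s, B.I (w ::ₘ s) = 0)
    (hind : ∑ G ∈ S, B.o w G • B.cl G = 0 → ∀ G ∈ S, B.o w G = 0) : w = 0 := by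
  classical
  have h1 : ∑ G ∈ S, B.o w G • B.cl G = 0 := by
    refine B.nd _ fun s => ?_
    have h2 := BCl.proj_fin w S htr hS hw s
    rw [h0] at h2
    have h3 : B.pb (∑ G ∈ S, B.o w G • B.cl G) = ∑ G ∈ S, B.o w G • B.pb (B.cl G) := by
      have h4 := map_sum (IsLinearMap.mk' _ B.pb_lin) (fun G => B.o w G • B.cl G) S
      refine h4.trans (Finset.sum_congr rfl fun G _ => ?_)
      exact (IsLinearMap.mk' _ B.pb_lin).map_smul (B.o w G) (B.cl G)
    rw [h3, BCl.I_sum]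
    simp_rw [BCl.I_smul]
    linarith
  have h2 := hind h1
  exact B.zero w htr (fun G hG => by
    by_cases h : G ∈ S
    · exact h2 G h
    · exact hw G hG h) h0

end Pool.Agent.H81.XN
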